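import Mathlib

/-!
# Optimal edge-colourings of complete graphs without rainbow cycles of length `n - 2`

For every `k ≥ 3` and for both `n = 2 ^ k` and `n = 2 ^ k - 1` there is an optimal edge-colouring
of `K_n` in which no cycle of length `n - 2` is rainbow.
-/

set_option autoImplicit false

namespace Pool.Agent.Results.MP_4bc86c_co.PowerOfTwo

open Finset

/-- `c` is a proper edge-colouring of the complete graph on `Fin n` (the colours are natural
numbers; the values of `c` on the diagonal are irrelevant): two distinct edges sharing a vertex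
get different colours. -/
def Proper {n : ℕ} (c : Sym2 (Fin n) → ℕ) : Prop :=
  ∀ x y z : Fin n, x ≠ y → x ≠ z → y ≠ z → c s(x, y) ≠ c s(x, z)

/-- The number of colours used on the edges of the complete graph. -/
def numColours {n : ℕ} (c : Sym2 (Fin n) → ℕ) : ℕ :=
  ((univ.filter fun e : Sym2 (Fin n) => ¬ e.IsDiag).image c).card

/-- `c` is an optimal edge-colouring of `K_n`: it is proper and it uses the least possible number
of colours. -/
def Optimal {n : ℕ} (c : Sym2 (Fin n) → ℕ) : Prop :=
  Proper c ∧ ∀ c' : Sym2 (Fin n) → ℕ, Proper c' → numColours c ≤ numColours c'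

/-- The group `(ℤ/2)^k`. -/
abbrev G (k : ℕ) : Type := Fin k → ZMod 2

lemma add_self' {k : ℕ} (g : G k) : g + g = 0 := by
  funext i
  simp only [Pi.add_apply, Pi.zero_apply]
  generalize g i = a
  revert a
  decide

lemma eq_of_add_eq_zero {k : ℕ} {g h : G k} (e : g + h = 0) : g = h := by
  have h1 : g + h + h = h := by rw [e, zero_add]
  rwa [add_assoc, add_self', add_zero] at h1

/-- The sum of all elements of `(ℤ/2)^k` vanishes for `k ≥ 2`. -/
lemma sum_all {k : ℕ} (hk : 2 ≤ k) : ∑ g : G k, g = 0 := by
  funext i
  rw [Finset.sum_apply, Pi.zero_apply]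
  obtain ⟨j, hj⟩ : ∃ j : Fin k, j ≠ i := by
    by_cases h : i = ⟨0, by omega⟩
    · exact ⟨⟨1, by omega⟩, by rw [h]; simp⟩
    · exact ⟨⟨0, by omega⟩, fun e => h e.symm⟩
  refine Finset.sum_involution (fun g _ => g + Pi.single j 1) ?_ ?_ ?_ ?_
  · intro g _
    rw [Pi.add_apply, Pi.single_eq_of_ne (Ne.symm hj), add_zero]
    generalize g i = a
    revert a
    decide
  · intro g _ _ h
    have := congrFun h j
    rw [Pi.add_apply, Pi.single_eq_same] at this
    simp at this
  · intro g _
    exact mem_univ _
  · intro g _
    show g + Pi.single j 1 + Pi.single j 1 = g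
    rw [add_assoc, add_self', add_zero]

variable {n k : ℕ}

/-- The edge `xy` gets the colour `f x + f y`. -/
noncomputable def colG (f : Fin n → G k) (e : Sym2 (Fin n)) : G k :=
  Sym2.lift ⟨fun x y => f x + f y, fun x y => add_comm _ _⟩ e

lemma colG_mk (f : Fin n → G k) (x y : Fin n) : colG f s(x, y) = f x + f y := rfl

/-- The colour coded by a natural number. -/
noncomputable def code (g : G k) : ℕ := (Fintype.equivFin (G k) g : ℕ)

lemma code_inj : Function.Injective (code (k := k)) := fun g h e =>
  (Fintype.equivFin (G k)).injective (Fin.ext e)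

lemma proper_colG {f : Fin n → G k} (hf : Function.Injective f) :
    Proper (fun e => code (colG f e)) := by
  intro x y z _ _ hyz h
  have h1 := code_inj h
  rw [colG_mk, colG_mk] at h1
  exact hyz (hf (add_left_cancel h1))

lemma numColours_colG {f : Fin n → G k} (hf : Function.Injective f) :
    numColours (fun e => code (colG f e)) ≤ 2 ^ k - 1 := by
  unfold numColours
  have hsub : (univ.filter fun e : Sym2 (Fin n) => ¬ e.IsDiag).image (fun e => code (colG f e)) ⊆
      (univ.erase (0 : G k)).image code := by
    intro c hc
    obtain ⟨e, he, rfl⟩ := mem_image.1 hc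
    refine mem_image.2 ⟨colG f e, ?_, rfl⟩
    rw [mem_erase]
    refine ⟨?_, mem_univ _⟩
    have he' := (mem_filter.1 he).2
    clear he hc
    revert he'
    refine Sym2.ind (fun x y => ?_) e
    intro he' h0
    rw [colG_mk] at h0
    exact he' (hf (eq_of_add_eq_zero h0))
  refine (card_le_card hsub).trans (card_image_le.trans ?_)
  rw [card_erase_of_mem (mem_univ _), card_univ]
  simp [ZMod.card]

/-- Every proper colouring uses at least `n - 1` colours. -/
lemma lower_even {c : Sym2 (Fin n) → ℕ} (hc : Proper c) (hn : 0 < n) : n - 1 ≤ numColours c := by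
  unfold numColours
  let x : Fin n := ⟨0, hn⟩
  have h1 : ((univ.erase x).image fun y => c s(x, y)) ⊆
      (univ.filter fun e : Sym2 (Fin n) => ¬ e.IsDiag).image c := by
    intro a ha
    obtain ⟨y, hy, rfl⟩ := mem_image.1 ha
    refine mem_image_of_mem c ?_
    rw [mem_filter]
    refine ⟨mem_univ _, ?_⟩
    intro h
    exact (mem_erase.1 hy).1 (Sym2.mk_isDiag_iff.1 h).symm
  have h2 : ((univ.erase x).image fun y => c s(x, y)).card = n - 1 := by
    rw [card_image_of_injOn]
    · rw [card_erase_of_mem (mem_univ _), card_univ, Fintype.card_fin]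
    · intro y hy z hz h
      by_contra hyz
      exact hc x y z (Ne.symm (mem_erase.1 hy).1) (Ne.symm (mem_erase.1 hz).1) hyz h
  rw [← h2]
  exact card_le_card h1

/-- For odd `n` every proper colouring uses at least `n` colours. -/
lemma lower_odd {c : Sym2 (Fin n) → ℕ} (hc : Proper c) (hn : Odd n) (hn3 : 3 ≤ n) :
    n ≤ numColours c := by
  classical
  obtain ⟨m, hm⟩ := hn
  set E : Finset (Sym2 (Fin n)) := univ.filter fun e : Sym2 (Fin n) => ¬ e.IsDiag with hE
  -- each colour class has at most `m` edges
  have hclass : ∀ a ∈ E.image c, (E.filter fun e => c e = a).card ≤ m := by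
    intro a _
    set M := E.filter fun e => c e = a with hM
    have hdis : (M : Set (Sym2 (Fin n))).PairwiseDisjoint (fun e => e.toFinset) := by
      intro e he f hf hef
      rw [Function.onFun, Finset.disjoint_left]
      intro v hv hv'
      rw [Sym2.mem_toFinset] at hv hv'
      obtain ⟨y, rfl⟩ := hv
      obtain ⟨z, rfl⟩ := hv'
      rw [mem_coe, hM, mem_filter, hE, mem_filter] at he hf
      have hy : v ≠ y := fun h => he.1.2 (Sym2.mk_isDiag_iff.2 h)
      have hz : v ≠ z := fun h => hf.1.2 (Sym2.mk_isDiag_iff.2 h)
      have hyz : y ≠ z := fun h => hef (by rw [h])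
      exact hc v y z hy hz hyz (he.2.trans hf.2.symm)
    have h1 : (M.biUnion fun e => e.toFinset).card = ∑ e ∈ M, e.toFinset.card :=
      card_biUnion (fun e he f hf hef => hdis he hf hef)
    have h2 : ∑ e ∈ M, e.toFinset.card = ∑ e ∈ M, 2 := by
      refine sum_congr rfl fun e he => ?_
      rw [hM, mem_filter, hE, mem_filter] at he
      exact Sym2.card_toFinset_of_not_isDiag e he.1.2
    have h3 : (M.biUnion fun e => e.toFinset).card ≤ n := by
      have := card_le_univ (M.biUnion fun e => e.toFinset)
      rwa [Fintype.card_fin] at this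
    rw [h1, h2, sum_const, smul_eq_mul] at h3
    omega
  have hcard : E.card = n.choose 2 := by
    have := Sym2.card_subtype_not_diag (α := Fin n)
    rw [Fintype.card_fin] at this
    rw [← this, Fintype.card_subtype]
  have hsum : E.card = ∑ a ∈ E.image c, (E.filter fun e => c e = a).card :=
    card_eq_sum_card_image c E
  have hle : E.card ≤ (E.image c).card * m := by
    rw [hsum]
    exact (sum_le_card_nsmul _ _ m hclass).trans (le_of_eq (by rw [smul_eq_mul]))
  have hch : n.choose 2 = n * m := by
    rw [Nat.choose_two_right, hm]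
    have : 2 * m + 1 - 1 = 2 * m := by omega
    rw [this, show (2 * m + 1) * (2 * m) = (2 * m + 1) * m * 2 by ring]
    exact Nat.mul_div_cancel _ (by norm_num)
  rw [hcard, hch] at hle
  show n ≤ (E.image c).card
  exact Nat.le_of_mul_le_mul_right hle (by omega)

/-- The colours along a walk add up to the sum of the labels of its ends. -/
lemma sum_walk (f : Fin n → G k) {u v : Fin n} (p : (⊤ : SimpleGraph (Fin n)).Walk u v) :
    (p.edges.map (colG f)).sum = f u + f v := by
  induction p with
  | nil => simp [add_self']
  | @cons u w v h p ih =>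
    rw [SimpleGraph.Walk.edges_cons, List.map_cons, List.sum_cons, ih, colG_mk]
    rw [show f u + f w + (f w + f v) = f u + (f w + f w) + f v by abel, add_self', add_zero]

/-- **Main theorem.** For every `k ≥ 3` and for both `n = 2 ^ k` and `n = 2 ^ k - 1` there is an
optimal edge-colouring of the complete graph `K_n` in which every cycle of length `n - 2` has
two edges of the same colour. -/
theorem result : ∀ k : ℕ, 3 ≤ k → ∀ n : ℕ, (n = 2 ^ k ∨ n = 2 ^ k - 1) →
    ∃ c : Sym2 (Fin n) → ℕ, Optimal c ∧
      ∀ (v : Fin n) (p : (⊤ : SimpleGraph (Fin n)).Walk v v), p.IsCycle → p.length = n - 2 →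
        ¬ (p.edges.map c).Nodup := by
  classical
  intro k hk n hn
  have hpow : 8 ≤ 2 ^ k := by
    calc 8 = 2 ^ 3 := by norm_num
      _ ≤ 2 ^ k := Nat.pow_le_pow_right (by norm_num) hk
  have heven : 2 ^ k % 2 = 0 := by
    obtain ⟨j, rfl⟩ : ∃ j, k = j + 1 := ⟨k - 1, by omega⟩
    rw [pow_succ]
    omega
  have hcardG : Fintype.card (G k) = 2 ^ k := by simp [ZMod.card]
  have hnle : n ≤ Fintype.card (G k) := by omega
  let f : Fin n → G k := fun i => (Fintype.equivFin (G k)).symm (Fin.castLE hnle i)
  have hf : Function.Injective f :=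
    (Fintype.equivFin (G k)).symm.injective.comp (Fin.castLE_injective hnle)
  refine ⟨fun e => code (colG f e), ⟨proper_colG hf, ?_⟩, ?_⟩
  · intro c' hc'
    refine (numColours_colG hf).trans ?_
    rcases hn with hn | hn
    · have := lower_even hc' (by omega)
      omega
    · have := lower_odd hc' ⟨(n - 1) / 2, by omega⟩ (by omega)
      omega
  · intro v p _ hlen hnd
    have hnd' : (p.edges.map (colG f)).Nodup := by
      have h1 : (p.edges.map (fun e => code (colG f e))) = (p.edges.map (colG f)).map code := by
        rw [List.map_map]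
        rfl
      rw [h1] at hnd
      exact hnd.of_map
    have hsum : (p.edges.map (colG f)).sum = 0 := by
      rw [sum_walk, add_self']
    set S : Finset (G k) := (p.edges.map (colG f)).toFinset with hS
    have hScard : S.card = n - 2 := by
      rw [hS, List.toFinset_card_of_nodup hnd', List.length_map, SimpleGraph.Walk.length_edges, hlen]
    have hSsum : ∑ g ∈ S, g = 0 := by
      have := List.sum_toFinset (fun g : G k => g) hnd'
      rw [hS, this, List.map_id', hsum]
    have h0S : (0 : G k) ∉ S := by
      rw [hS, List.mem_toFinset, List.mem_map]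
      rintro ⟨e, he, h0⟩
      have he' := p.edges_subset_edgeSet he
      clear he
      revert he' h0
      refine Sym2.ind (fun x y => ?_) e
      intro h0 he'
      rw [colG_mk] at h0
      exact he' (hf (eq_of_add_eq_zero h0))
    set T : Finset (G k) := univ \ insert 0 S with hT
    have hTcard : T.card = 2 ^ k - (n - 2 + 1) := by
      rw [hT, card_sdiff_of_subset (subset_univ _), card_univ, hcardG, card_insert_of_notMem h0S,
        hScard]
    have hTsum : ∑ g ∈ T, g = 0 := by
      have h1 := Finset.sum_sdiff (f := fun g : G k => g) (subset_univ (insert (0 : G k) S))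
      rw [sum_insert h0S, hSsum, sum_all (by omega), add_zero, add_zero] at h1
      exact h1
    have h0T : (0 : G k) ∉ T := by
      rw [hT, mem_sdiff]
      intro h
      exact h.2 (mem_insert_self _ _)
    rcases hn with hn | hn
    · have h1 : T.card = 1 := by omega
      obtain ⟨g, hg⟩ := card_eq_one.1 h1
      rw [hg, sum_singleton] at hTsum
      rw [hg, mem_singleton] at h0T
      exact h0T hTsum.symm
    · have h1 : T.card = 2 := by omega
      obtain ⟨g, h, hgh, hg⟩ := card_eq_two.1 h1
      rw [hg, sum_pair hgh] at hTsum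
      exact hgh (eq_of_add_eq_zero hTsum)

end Pool.Agent.Results.MP_4bc86c_co.PowerOfTwo
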